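import Mathlib
import Pool.Agent.H30.DL

set_option autoImplicit false

namespace Pool.Agent.Results.MP_8c175f_gt.Ultra

open Set Pool.Agent.H30

/-- Discretely Lindelof: the closure of every discrete subset is Lindelof. -/
def DiscLind (X : Type) [TopologicalSpace X] : Prop :=
  ∀ D : Set X, DiscreteTopology D → IsLindelof (closure D)

/-- Weakly Lindelof: every open cover has a countable subfamily with dense union. -/
def WeakLind (X : Type) [TopologicalSpace X] : Prop :=
  ∀ 𝒰 : Set (Set X), (∀ U ∈ 𝒰, IsOpen U) → ⋃₀ 𝒰 = Set.univ →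
    ∃ 𝒱 ⊆ 𝒰, 𝒱.Countable ∧ Dense (⋃₀ 𝒱)

theorem result : ∃ (X : Type) (_ : TopologicalSpace X), T1Space X ∧ DiscLind X ∧ ¬ WeakLind X :=
  ⟨DL.P, inferInstance, inferInstance, DL.dl, DL.not_wl⟩

end Pool.Agent.Results.MP_8c175f_gt.Ultra
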